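import Pool.Agent.W300.FT.Stm

set_option autoImplicit false

/-! FT-INV: invariance of the process. -/

namespace Pool.Agent.W914.FT
open MeasureTheory ProbabilityTheory Pool.Agent.W300.FT

instance inst_coin : IsProbabilityMeasure coin := by
  constructor
  unfold coin
  simp only [Measure.coe_add, Measure.coe_smul, Pi.add_apply, Pi.smul_apply, measure_univ,
    smul_eq_mul, mul_one]
  exact ENNReal.add_halves 1

theorem relabel {E : Type} (σ : E ≃ E) :
    (PC E).map (fun (ω : E → Bool) e => ω (σ e)) = PC E := by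
  have h := Measure.infinitePi_map_piCongrLeft (X := fun _ : E => Bool) (μ := fun _ : E => coin)
    σ.symm
  have e0 : (MeasurableEquiv.piCongrLeft (fun _ : E => Bool) σ.symm : (E → Bool) → (E → Bool))
      = fun (ω : E → Bool) e => ω (σ e) := by
    funext ω i
    obtain ⟨a, rfl⟩ := σ.symm.surjective i
    rw [MeasurableEquiv.coe_piCongrLeft]
    have := Equiv.piCongrLeft_apply_apply (fun _ : E => Bool) σ.symm ω a
    rw [this]
    simp
  rw [e0] at h
  exact h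

/-- the relabelled bits -/
def rl {V : Type} (φ : V → V) (ω : V × K → Bool) : V × K → Bool := fun e => ω (φ e.1, e.2)

theorem et_rl {V : Type} (G : SimpleGraph V) (φ : G ≃g G) (ω : V × K → Bool) (c : ℕ × ℕ) (j : ℕ)
    (v : V) : et G ω c j (φ v) ↔ et G (rl φ ω) c j v := by
  unfold et rl
  constructor
  · rintro ⟨u, ⟨hu, hw⟩, huniq⟩
    refine ⟨φ.symm u, ⟨?_, ?_⟩, ?_⟩
    · rw [← φ.map_adj_iff, φ.apply_symm_apply]; exact hu
    · show ω (φ (φ.symm u), _) = true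
      rw [φ.apply_symm_apply]; exact hw
    · rintro y ⟨hy, hwy⟩
      have := huniq (φ y) ⟨φ.map_adj_iff.mpr hy, hwy⟩
      rw [← this, φ.symm_apply_apply]
  · rintro ⟨u, ⟨hu, hw⟩, huniq⟩
    refine ⟨φ u, ⟨φ.map_adj_iff.mpr hu, hw⟩, ?_⟩
    rintro y ⟨hy, hwy⟩
    have := huniq (φ.symm y) ⟨by rw [← φ.map_adj_iff, φ.apply_symm_apply]; exact hy, by
      show ω (φ (φ.symm y), _) = true
      rw [φ.apply_symm_apply]; exact hwy⟩
    rw [← this, φ.apply_symm_apply]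

theorem mt_rl {V : Type} (G : SimpleGraph V) (φ : G ≃g G) (ω : V × K → Bool) (c : ℕ × ℕ) (j : ℕ)
    (u v : V) : Pool.Agent.W300.FT.mt G ω c j (φ u) (φ v) ↔
      Pool.Agent.W300.FT.mt G (rl φ ω) c j u v := by
  unfold Pool.Agent.W300.FT.mt
  rw [et_rl, et_rl, φ.map_adj_iff]
  rfl

theorem ch_rl {V : Type} (G : SimpleGraph V) (φ : G ≃g G) (ω : V × K → Bool) (c : ℕ × ℕ)
    (γ : ℕ → V) : Ch G ω c (fun n => φ (γ n)) ↔ Ch G (rl φ ω) c γ := by
  unfold Ch
  refine forall_congr' fun j => forall_congr' fun _ => ?_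
  exact mt_rl G φ ω c j _ _

theorem fm_rl {V : Type} (φ : V → V) (ω : V × K → Bool) (c : ℕ × ℕ) (i : ℕ)
    (γ : ℕ → V) : fm ω c i (fun n => φ (γ n)) = fm (rl φ ω) c i γ := rfl

theorem ex1_rl {V : Type} (G : SimpleGraph V) (φ : G ≃g G) (ω : V × K → Bool) (c : ℕ × ℕ) (v : V) :
    (∃ γ : ℕ → V, γ 1 = φ v ∧ Ch G ω c γ) ↔ ∃ γ : ℕ → V, γ 1 = v ∧ Ch G (rl φ ω) c γ := by
  constructor
  · rintro ⟨γ, h1, h2⟩
    refine ⟨fun n => φ.symm (γ n), by show φ.symm (γ 1) = v; rw [h1, φ.symm_apply_apply], ?_⟩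
    rw [← ch_rl]
    have : (fun n => φ (φ.symm (γ n))) = γ := funext fun n => φ.apply_symm_apply _
    rw [this]; exact h2
  · rintro ⟨γ, h1, h2⟩
    exact ⟨fun n => φ (γ n), by show φ (γ 1) = φ v; rw [h1], (ch_rl G φ ω c γ).mpr h2⟩

theorem ex2_rl {V : Type} (G : SimpleGraph V) (φ : G ≃g G) (ω : V × K → Bool) (c : ℕ × ℕ) (i : ℕ)
    (v : V) : (∃ γ : ℕ → V, γ 1 = φ v ∧ Ch G ω c γ ∧ fm ω c i γ = 1) ↔
      ∃ γ : ℕ → V, γ 1 = v ∧ Ch G (rl φ ω) c γ ∧ fm (rl φ ω) c i γ = 1 := by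
  constructor
  · rintro ⟨γ, h1, h2, h3⟩
    have e : (fun n => φ (φ.symm (γ n))) = γ := funext fun n => φ.apply_symm_apply _
    refine ⟨fun n => φ.symm (γ n), by show φ.symm (γ 1) = v; rw [h1, φ.symm_apply_apply], ?_, ?_⟩
    · rw [← ch_rl, e]; exact h2
    · rw [← fm_rl, e]; exact h3
  · rintro ⟨γ, h1, h2, h3⟩
    exact ⟨fun n => φ (γ n), by show φ (γ 1) = φ v; rw [h1], (ch_rl G φ ω c γ).mpr h2, h3⟩

theorem psi_rl {V : Type} (G : SimpleGraph V) (φ : G ≃g G) (ω : V × K → Bool) :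
    (fun v => Psi G ω (φ v)) = Psi G (rl φ ω) := by
  classical
  funext v k
  unfold Psi
  simp only [ex1_rl G φ ω k.1 v, ex2_rl G φ ω k.1 k.2.2 v, et_rl G φ ω k.1 k.2.1 v]
  rfl

theorem inv (hm : S_MEAS) : S_INV := by
  intro V G hV φ
  have hPsi : Measurable (Psi G) := (hm V G Set.univ hV).1
  have hs : Measurable (fun x : V → K → Bool => fun v => x (φ v)) :=
    measurable_pi_lambda _ fun v => measurable_pi_apply _
  have hr : Measurable (fun ω : V × K → Bool => rl φ ω) :=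
    measurable_pi_lambda _ fun e => measurable_pi_apply _
  have hrel : (PC (V × K)).map (fun ω : V × K → Bool => rl φ ω) = PC (V × K) :=
    relabel (φ.toEquiv.prodCongr (Equiv.refl K))
  unfold muX
  rw [Measure.map_map hs hPsi]
  have : (fun x : V → K → Bool => fun v => x (φ v)) ∘ Psi G
      = Psi G ∘ (fun ω : V × K → Bool => rl φ ω) := funext fun ω => psi_rl G φ ω
  rw [this, ← Measure.map_map hPsi hr, hrel]

end Pool.Agent.W914.FT
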